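import Mathlib
import Pool.Agent.U707.LI.Stm

/-!
# Project LI, package TW: representations of the same dimension which agree on `H` are twists
-/

set_option autoImplicit false

open Module

namespace Pool.Agent.U94.LI

open Pool.Agent.U707.LI

/-- an endomorphism which commutes with all endomorphisms is a scalar -/
lemma scalar {E V : Type} [Field E] [AddCommGroup V] [Module E V] [Nontrivial V]
    (X : Module.End E V) (hX : ∀ T : Module.End E V, X * T = T * X) : ∃ a : E, ∀ v, X v = a • v := by
  obtain ⟨v₀, hv₀⟩ := exists_ne (0 : V)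
  obtain ⟨φ, hφ⟩ : ∃ φ : Module.Dual E V, φ v₀ ≠ 0 := by
    by_contra hcon
    push Not at hcon
    exact hv₀ ((Module.forall_dual_apply_eq_zero_iff E v₀).1 hcon)
  refine ⟨(φ v₀)⁻¹ * φ (X v₀), fun w => ?_⟩
  have h1 := congrArg (fun T : Module.End E V => T v₀) (hX (LinearMap.smulRight φ w))
  simp only [Module.End.mul_apply, LinearMap.smulRight_apply, map_smul] at h1
  rw [mul_smul, ← h1, smul_smul, inv_mul_cancel₀ hφ, one_smul]

theorem t_TW : Pool.Agent.U707.LI.S_TW := by
  intro G E _ _ H _ V W _ _ _ _ _ _ _ ρ σ hfull hsub hrank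
  obtain ⟨B, f, hf, hB⟩ := hsub
  have h1 : finrank E V ≤ finrank E B := LinearMap.finrank_le_finrank_of_surjective (f := f) hf
  have hBtop : B = ⊤ := by
    refine Submodule.eq_top_of_finrank_eq (le_antisymm (Submodule.finrank_le B) ?_)
    rw [hrank]; exact h1
  have h2 : finrank E B = finrank E V := by
    rw [hBtop, finrank_top, hrank]
  have hinj : Function.Injective f := (LinearMap.injective_iff_surjective_of_finrank_eq_finrank h2).2 hf
  let e : W ≃ₗ[E] V := (LinearEquiv.ofTop B hBtop).symm.trans (LinearEquiv.ofBijective f ⟨hinj, hf⟩)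
  have he : ∀ h ∈ H, ∀ x, e (σ h x) = ρ h (e x) := by
    intro h hh x
    have hx : x ∈ B := by rw [hBtop]; exact Submodule.mem_top
    obtain ⟨y, hy1, hy2⟩ := hB h hh ⟨x, hx⟩
    have e1 : (LinearEquiv.ofTop B hBtop).symm x = ⟨x, hx⟩ := rfl
    have e2 : (LinearEquiv.ofTop B hBtop).symm (σ h x) = y := by
      apply Subtype.ext
      rw [hy1]
      rfl
    change f ((LinearEquiv.ofTop B hBtop).symm (σ h x)) = ρ h (f ((LinearEquiv.ofTop B hBtop).symm x))
    rw [e1, e2, hy2]
  have hρ : ∀ (g : G) (v : V), ρ g (ρ g⁻¹ v) = v := fun g v => by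
    rw [← Module.End.mul_apply, ← map_mul, mul_inv_cancel, map_one, Module.End.one_apply]
  have hρ' : ∀ (g : G) (v : V), ρ g⁻¹ (ρ g v) = v := fun g v => by
    rw [← Module.End.mul_apply, ← map_mul, inv_mul_cancel, map_one, Module.End.one_apply]
  have hσ' : ∀ (g : G) (v : W), σ g⁻¹ (σ g v) = v := fun g v => by
    rw [← Module.End.mul_apply, ← map_mul, inv_mul_cancel, map_one, Module.End.one_apply]
  -- the scalars
  have key : ∀ g : G, ∃ a : E, a ≠ 0 ∧ ∀ x, e (σ g x) = a • ρ g (e x) := by
    intro g
    let X : Module.End E V := (ρ g⁻¹) ∘ₗ (e : W →ₗ[E] V) ∘ₗ (σ g) ∘ₗ (e.symm : V →ₗ[E] W)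
    have hXv : ∀ v, X v = ρ g⁻¹ (e (σ g (e.symm v))) := fun v => rfl
    have hXH : ∀ h ∈ H, X * ρ h = ρ h * X := by
      intro h hh
      ext v
      have hc : g * h * g⁻¹ ∈ H := Subgroup.Normal.conj_mem inferInstance h hh g
      have s1 : e.symm (ρ h v) = σ h (e.symm v) := by
        apply e.injective
        rw [LinearEquiv.apply_symm_apply, he h hh, LinearEquiv.apply_symm_apply]
      have s2 : σ g (σ h (e.symm v)) = σ (g * h * g⁻¹) (σ g (e.symm v)) := by
        rw [← Module.End.mul_apply, ← Module.End.mul_apply, ← map_mul, ← map_mul]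
        congr 2
        group
      rw [Module.End.mul_apply, Module.End.mul_apply, hXv, hXv, s1, s2, he _ hc,
        ← Module.End.mul_apply (ρ g⁻¹), ← Module.End.mul_apply (ρ h), ← map_mul, ← map_mul]
      congr 2
      group
    have hXT : ∀ T : Module.End E V, X * T = T * X := by
      intro T
      have hT : T ∈ Submodule.span E (ρ '' (H : Set G)) := by
        rw [show Submodule.span E (ρ '' (H : Set G)) = ⊤ from hfull]
        exact Submodule.mem_top
      induction hT using Submodule.span_induction with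
      | mem y hy =>
        obtain ⟨h, hh, rfl⟩ := hy
        exact hXH h hh
      | zero => rw [mul_zero, zero_mul]
      | add y z _ _ hy hz => rw [mul_add, add_mul, hy, hz]
      | smul a y _ hy => rw [mul_smul_comm, smul_mul_assoc, hy]
    obtain ⟨a, ha⟩ := scalar X hXT
    refine ⟨a, ?_, fun x => ?_⟩
    · rintro rfl
      obtain ⟨v₀, hv₀⟩ := exists_ne (0 : V)
      have h3 := ha v₀
      rw [zero_smul, hXv] at h3
      have h4 : e (σ g (e.symm v₀)) = 0 := by
        have := congrArg (ρ g) h3
        rwa [hρ, map_zero] at this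
      have h5 : σ g (e.symm v₀) = 0 := e.injective (by rw [h4, map_zero])
      have h6 : e.symm v₀ = 0 := by
        have := congrArg (σ g⁻¹) h5
        rwa [hσ', map_zero] at this
      exact hv₀ (e.symm.injective (by rw [h6, map_zero]))
    · have h3 := ha (e x)
      rw [hXv, LinearEquiv.symm_apply_apply] at h3
      have h4 := congrArg (ρ g) h3
      rw [hρ, map_smul] at h4
      exact h4
  choose a ha0 ha using key
  have huniq : ∀ (g : G) (b : E), (∀ x, e (σ g x) = b • ρ g (e x)) → a g = b := by
    intro g b hb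
    obtain ⟨v₀, hv₀⟩ := exists_ne (0 : V)
    have h3 := (ha g (e.symm v₀)).symm.trans (hb (e.symm v₀))
    rw [LinearEquiv.apply_symm_apply] at h3
    have h4 : ρ g v₀ ≠ 0 := by
      intro h0
      apply hv₀
      rw [← hρ' g v₀, h0, map_zero]
    have h5 : (a g - b) • ρ g v₀ = 0 := by rw [sub_smul, h3, sub_self]
    rcases smul_eq_zero.1 h5 with h6 | h6
    · exact sub_eq_zero.1 h6
    · exact absurd h6 h4
  have hH : ∀ h ∈ H, a h = 1 := fun h hh => huniq h 1 fun x => by rw [one_smul, he h hh]
  have hmul : ∀ g g', a (g * g') = a g * a g' := by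
    intro g g'
    refine huniq _ _ fun x => ?_
    rw [map_mul, map_mul, Module.End.mul_apply, Module.End.mul_apply, ha g, ha g', map_smul, smul_smul]
  refine ⟨{ toFun := fun g => Units.mk0 (a g) (ha0 g)
            map_one' := Units.ext (hH 1 H.one_mem)
            map_mul' := fun g g' => Units.ext (hmul g g') }, e, fun h hh => Units.ext (hH h hh), ha⟩

end Pool.Agent.U94.LI
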